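import Mathlib
import Pool.Agent.Q29.DigPolyTM
import Pool.Agent.Q165.Mono

/-!
# The digits of the monomials in `π` and `ζ(3)` and of the values of polynomials at them

If `ζ(3) / π ^ 3` is rational, its digits have bounded linear complexity (the least order of a linear recurrence which the
first `L` digits satisfy) in every base. We consider finitely many monomials `π ^ a ζ(3) ^ k`, `k ≠ 0`, whose exponents are
pairwise non-proportional, for instance `ζ(3) / π ^ j` for several integers `j`, and more generally `π ^ a t ^ k` for an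
arbitrary real number `t ≠ 0`. For every `D` there is an exponent `κ`, which does not depend on `t`, such that at each scale
`Λ` at most one of these numbers is exceptional; for all the other numbers `v`, all nonconstant integer polynomials `P` of
degree at most `D` and height at most `e^(δ Λ)` and all bases `g ≤ e^(δ Λ)` the linear complexity of the first
`⌊Λ / log g⌋` digits of `P(v)` in base `g` is at least `(1 / (κ + 1) - ε) Λ / log g`.

The proof uses the simultaneous measure of transcendence of these numbers (`Pool/Agent/Q165/Mono.lean`, and the starting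
files `Pool/Agent/TH456/TM/`) and the approximations given by a short recurrence of digits, uniformly in the base
(`Pool/Agent/Y928/PL/Mixed.lean`, `Pool/Agent/Q29/DigPolyTM.lean`).
-/

set_option autoImplicit false

namespace Pool.Agent.Results.MP_e47f08_nt.DigitsOfMonomials

open Finset Polynomial

/-- the `i`-th digit of `x` after the point in base `g` -/
noncomputable def digit (g : ℕ) (x : ℝ) (i : ℕ) : ℤ := ⌊x * (g : ℝ) ^ i⌋ % (g : ℤ)

/-- the linear complexity of the first `L` digits of `x` in base `g`: the least `m` such that for some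
rational numbers `c_0, …, c_(m-1)` one has `s_(i+m) = c_0 s_i + … + c_(m-1) s_(i+m-1)` for
`1 ≤ i ≤ L - m`, where `s_i` is the `i`-th digit -/
noncomputable def complexity (g : ℕ) (x : ℝ) (L : ℕ) : ℕ :=
  sInf {m | ∃ c : ℕ → ℚ, ∀ i : ℕ, 1 ≤ i → i + m ≤ L →
    (digit g x (i + m) : ℚ) = ∑ j ∈ range m, c j * (digit g x (i + j) : ℚ)}

/-- the function `m + C √((m+1) log (m+2))` -/
noncomputable def F (C : ℝ) (m : ℕ) : ℝ :=
  m + C * Real.sqrt (((m : ℝ) + 1) * Real.log ((m : ℝ) + 2))

/-- **The digits of the values of nonconstant polynomials of degree at most `D` at different numbers `v i`, `v j` of the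
family `v` are not simple at the same scale**, with the exponent `κ`. (1) For some `C`, for all `i ≠ j`, all nonconstant
integer polynomials `P`, `Q` of degree at most `D` with coefficients bounded by `M`, all bases `g`, `g'` and all `L`, `L'`:
if `F(N) log g ≤ α` and `F(N') log g' ≤ α` for the linear complexities `N`, `N'` of the first `L` digits of `P(v i)` in base
`g` and the first `L'` digits of `Q(v j)` in base `g'`, then `min (L log g, L' log g') ≤ (κ + 1) α + κ log M`. (2) For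
`ε > 0` there is `δ > 0` such that for all `Λ ≥ 1`, `i ≠ j`, all such `P`, `Q` with coefficients bounded by `e^(δ Λ)` and all
bases `g, g' ≤ e^(δ Λ)`, with `L = ⌊Λ / log g⌋`, `L' = ⌊Λ / log g'⌋`, one has `N ≥ (1 / (κ + 1) - ε) Λ / log g` or
`N' ≥ (1 / (κ + 1) - ε) Λ / log g'`. So at each scale `Λ` there is at most one `i` such that the digits of some number
`P(v i)` in some base are simple. -/
def Complicated {ι : Type} (v : ι → ℝ) (D : ℕ) (κ : ℝ) : Prop :=
  (∃ C : ℝ, 0 < C ∧ ∀ i j, i ≠ j → ∀ P Q : ℤ[X], 0 < P.natDegree → 0 < Q.natDegree → P.natDegree ≤ D →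
    Q.natDegree ≤ D → ∀ M : ℝ, 1 ≤ M → (∀ n, |(P.coeff n : ℝ)| ≤ M) → (∀ n, |(Q.coeff n : ℝ)| ≤ M) →
    ∀ g g' : ℕ, 2 ≤ g → 2 ≤ g' → ∀ (L L' : ℕ) (Λ α : ℝ), Λ ≤ L * Real.log g → Λ ≤ L' * Real.log g' →
      F C (complexity g (aeval (v i) P) L) * Real.log g ≤ α →
      F C (complexity g' (aeval (v j) Q) L') * Real.log g' ≤ α → Λ ≤ (κ + 1) * α + κ * Real.log M) ∧
  ∀ ε : ℝ, 0 < ε → ∃ δ : ℝ, 0 < δ ∧ ∀ Λ : ℝ, 1 ≤ Λ → ∀ i j, i ≠ j → ∀ P Q : ℤ[X], 0 < P.natDegree →
    0 < Q.natDegree → P.natDegree ≤ D → Q.natDegree ≤ D → (∀ n, |(P.coeff n : ℝ)| ≤ Real.exp (δ * Λ)) →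
    (∀ n, |(Q.coeff n : ℝ)| ≤ Real.exp (δ * Λ)) → ∀ g g' : ℕ, 2 ≤ g → 2 ≤ g' → (g : ℝ) ≤ Real.exp (δ * Λ) →
    (g' : ℝ) ≤ Real.exp (δ * Λ) →
      (1 / (κ + 1) - ε) * (Λ / Real.log g) ≤ complexity g (aeval (v i) P) ⌊Λ / Real.log g⌋₊ ∨
      (1 / (κ + 1) - ε) * (Λ / Real.log g') ≤ complexity g' (aeval (v j) Q) ⌊Λ / Real.log g'⌋₊

/-- the number `π ^ a t ^ k`, `e = (a, k)` -/
noncomputable def mono (t : ℝ) (e : ℤ × ℤ) : ℝ := Real.pi ^ e.1 * t ^ e.2

theorem mono_coe (t : ℝ) (e : ℤ × ℤ) : ((mono t e : ℝ) : ℂ) = (Real.pi : ℂ) ^ e.1 * (t : ℂ) ^ e.2 := by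
  unfold mono
  rw [Complex.ofReal_mul, Complex.ofReal_zpow, Complex.ofReal_zpow]

/-- `ζ(3)` -/
noncomputable def zeta3 : ℝ := ∑' n : ℕ, 1 / ((n : ℝ) + 1) ^ 3

theorem zeta3_pos : 0 < zeta3 := by
  have hs : Summable fun n : ℕ => 1 / ((n : ℝ) + 1) ^ 3 := by
    have h1 : Summable fun n : ℕ => 1 / (n : ℝ) ^ 3 := Real.summable_one_div_nat_pow.2 (by norm_num)
    have h2 := (summable_nat_add_iff 1).2 h1
    simpa using h2
  exact hs.tsum_pos (fun n => by positivity) 0 (by norm_num)

/-- **The digits of the numbers `π ^ a t ^ k`.** For every finite set `S` of pairs of integers `(a, k)` with `k ≠ 0`, no two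
of them proportional, and every `D` there is an exponent `κ` such that for all real `t ≠ 0` the family of the numbers
`π ^ a t ^ k`, `(a, k) ∈ S`, has the property `Complicated`; in particular for `t = ζ(3)`. -/
theorem result (S : Finset (ℤ × ℤ)) (hS : ∀ e ∈ S, e.2 ≠ 0)
    (hSS : ∀ e ∈ S, ∀ e' ∈ S, e ≠ e' → e.1 * e'.2 ≠ e'.1 * e.2) (D : ℕ) :
    ∃ κ : ℝ, 0 < κ ∧ (∀ t : ℝ, t ≠ 0 → Complicated (fun e : S => mono t e) D κ) ∧
      Complicated (fun e : S => mono zeta3 e) D κ := by
  obtain ⟨κ, hκ, h⟩ := Pool.Agent.Q165.Mono.fam_mono Real.pi Real.pi_pos Pool.Agent.TH456.TM.measT_pi S hS hSS D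
  have key : ∀ t : ℝ, t ≠ 0 → Complicated (fun e : S => mono t e) D (max κ 3) := by
    intro t ht
    obtain ⟨C, hC, h1, h2⟩ := h t (by exact_mod_cast ht)
    refine Pool.Agent.Q29.DD.digComplex_of_TM _ D κ ⟨C, hC, ?_⟩
    intro i j hij P Q hP hQ hPD hQD H hPH hQH
    rw [mono_coe, mono_coe]
    exact h1 i j hij P Q hP hQ hPD hQD H hPH hQH
  exact ⟨max κ 3, by positivity, key, key _ zeta3_pos.ne'⟩

end Pool.Agent.Results.MP_e47f08_nt.DigitsOfMonomials
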