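import Mathlib
import Pool.Agent.Q29.EqSimul
import Pool.Agent.TH957.PB.Alt
import Pool.Agent.Y928.PN.Pairs

/-!
# Uniform distribution of the multiples of `ζ(3)/π³` and `8 G - π⁵/(18 ζ(3)) ± (2/3) π²`

`G` is the constant of Catalan. If `ζ(3)/π³` is rational, its multiples by the integers up to `M`, by their powers or by the
primes up to `M` are not uniformly distributed modulo one at any large scale `M`. By the starting files (`W34/GB`, `TH957/PB`)
at most one of the three numbers `ζ(3)/π³`, `8 G - π⁵/(18 ζ(3)) + (2/3) π²`, `8 G - π⁵/(18 ζ(3)) - (2/3) π²` is rational. We prove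
that at every large scale the multiples of at least two of these three numbers are uniformly distributed with a power saving:
for all `K` and `A ≥ 1` there are `κ > 0` and `N₀` such that for every `N ≥ N₀`, with at most one exception, the three numbers
`x` have the following property: for all `M` from `N` to `N ^ A` the multiples of `x` by the integers up to `M`, by their
`k`-th powers for `k ≤ K` (even with a real polynomial of degree less than `k` added), and by the primes up to `M` in each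
residue class modulo `d ≤ M ^ κ` are uniformly distributed modulo one with an error `M ^ (1 - κ)`. In particular if this
fails for `ζ(3)/π³` at a scale, it holds for the two other numbers at this scale.

The proof uses the simultaneous measure of the starting files (`TH957/PB`), a measure of transcendence of `π`
(`TH456/TM`), an inverse theorem for the sums of Weyl and a form of the estimate of Vinogradov for the sums over primes with a
power saving (`H373R2/NB`, `W110/HV`).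
-/

set_option autoImplicit false

namespace Pool.Agent.Results.MP_e47f08_nt.MultiplesAlongPrimes

open Finset Polynomial

/-- The multiples of `x` are uniformly distributed at the scale `M`, with a power saving, along all polynomials of degree
at most `K` and along the primes of all residue classes:

* for every nonzero integer `b` with `|b| ≤ M ^ κ`, every `1 ≤ k ≤ K` and every real polynomial `R` of degree less than
  `k`, the number of `0 ≤ n < M` with the fractional part of `b x n ^ k + R(n)` in `[u, v)` is `(v - u) M` up to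
  `M ^ (1 - κ)`, for all `0 ≤ u ≤ v ≤ 1`;
* for every such `b`, every `1 ≤ d ≤ M ^ κ`, every `r` and every real `β`, the number of primes `p ≤ M` with
  `p ≡ r (mod d)` and the fractional part of `b x p + β` in `[u, v)` is `(v - u)` times the number of all the primes
  `p ≤ M` with `p ≡ r (mod d)`, up to `M ^ (1 - κ)`. -/
def Good (κ : ℝ) (K M : ℕ) (x : ℝ) : Prop :=
  (∀ b : ℤ, b ≠ 0 → |(b : ℝ)| ≤ (M : ℝ) ^ κ → ∀ k : ℕ, 1 ≤ k → k ≤ K → ∀ R : ℝ[X], R.degree < k →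
    ∀ u v : ℝ, 0 ≤ u → u ≤ v → v ≤ 1 →
      |(((range M).filter fun n : ℕ => u ≤ Int.fract (b * x * (n : ℝ) ^ k + R.eval (n : ℝ)) ∧
          Int.fract (b * x * (n : ℝ) ^ k + R.eval (n : ℝ)) < v).card : ℝ) - (v - u) * M| ≤
        (M : ℝ) ^ (1 - κ)) ∧
  (∀ b : ℤ, b ≠ 0 → |(b : ℝ)| ≤ (M : ℝ) ^ κ → ∀ d r : ℕ, 1 ≤ d → (d : ℝ) ≤ (M : ℝ) ^ κ → ∀ β : ℝ,
    ∀ u v : ℝ, 0 ≤ u → u ≤ v → v ≤ 1 →
      |(((range (M + 1)).filter fun p : ℕ => (p.Prime ∧ p ≡ r [MOD d]) ∧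
          (u ≤ Int.fract (b * x * p + β) ∧ Int.fract (b * x * p + β) < v)).card : ℝ) -
        (v - u) * ((range (M + 1)).filter fun p : ℕ => p.Prime ∧ p ≡ r [MOD d]).card| ≤
        (M : ℝ) ^ (1 - κ))

/-- `ζ(3)` -/
noncomputable def zeta3 : ℝ := ∑' j : ℕ, 1 / ((j : ℝ) + 1) ^ 3

/-- Catalan's constant -/
noncomputable def G : ℝ := ∑' j : ℕ, (-1 : ℝ) ^ j / (2 * (j : ℝ) + 1) ^ 2

/-- `x 0 = ζ(3)/π³`, `x 1 = 8 G - π⁵/(18 ζ(3)) + (2/3) π²`, `x 2 = 8 G - π⁵/(18 ζ(3)) - (2/3) π²` -/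
noncomputable def x (i : ℕ) : ℝ :=
  if i = 0 then zeta3 / Real.pi ^ 3
  else if i = 1 then 8 * G - Real.pi ^ 5 / (18 * zeta3) + 2 / 3 * Real.pi ^ 2
  else 8 * G - Real.pi ^ 5 / (18 * zeta3) - 2 / 3 * Real.pi ^ 2

theorem good_iff (κ : ℝ) (K M : ℕ) (x : ℝ) : Good κ K M x ↔ Pool.Agent.Q29.Eqd.Good κ K M x := Iff.rfl

theorem key (ε : ℝ) (hε : ε = 1 ∨ ε = -1) : ∃ c : ℝ, 0 < c ∧ ∀ q : ℕ, 1 ≤ q → ∀ s a : ℤ,
    c ≤ (q : ℝ) ^ (3999 : ℝ) * max |(q : ℝ) * (zeta3 / Real.pi ^ 3) - s|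
      |(q : ℝ) * (8 * G - Real.pi ^ 5 / (18 * zeta3) + ε * (2 / 3 * Real.pi ^ 2)) - a| := by
  have key0 := Pool.Agent.TH957.PB.alt ε hε
  unfold Pool.Agent.W34.GB.GC Pool.Agent.W34.GB.Z3 at key0
  change ∃ c : ℝ, 0 < c ∧ ∀ a s q t : ℤ, 0 < q → 0 < t →
    c * ((q : ℝ) * t) ^ (-(2000 : ℝ)) ≤ max |zeta3 / Real.pi ^ 3 - (s : ℝ) / t|
      |8 * G - Real.pi ^ 5 / (18 * zeta3) + ε * (2 / 3 * Real.pi ^ 2) - (a : ℝ) / q| at key0
  obtain ⟨c, hc, h1⟩ := key0
  refine ⟨c, hc, fun q hq s a => ?_⟩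
  have hq0 : (0 : ℝ) < q := by exact_mod_cast hq
  have h2 := h1 a s q q (by exact_mod_cast hq) (by exact_mod_cast hq)
  simp only [Int.cast_natCast] at h2
  have e2 : ∀ (y : ℝ) (p : ℤ), |(q : ℝ) * y - p| = q * |y - (p : ℝ) / q| := by
    intro y p
    rw [← abs_of_pos hq0, ← abs_mul, abs_of_pos hq0]
    congr 1
    field_simp
  rw [e2, e2, ← mul_max_of_nonneg _ _ hq0.le]
  generalize max |zeta3 / Real.pi ^ 3 - (s : ℝ) / (q : ℝ)|
      |8 * G - Real.pi ^ 5 / (18 * zeta3) + ε * (2 / 3 * Real.pi ^ 2) - (a : ℝ) / (q : ℝ)| = M at h2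
  have e3 : ((q : ℝ) * q) ^ (-(2000 : ℝ)) * ((q : ℝ) ^ (3999 : ℝ) * q) = 1 := by
    have e4 : (q : ℝ) ^ (3999 : ℝ) * q = (q : ℝ) ^ (4000 : ℝ) := by
      nth_rewrite 2 [← Real.rpow_one (q : ℝ)]
      rw [← Real.rpow_add hq0]
      norm_num
    have e5 : ((q : ℝ) * q) ^ (-(2000 : ℝ)) = (q : ℝ) ^ (-(4000 : ℝ)) := by
      rw [Real.mul_rpow hq0.le hq0.le, ← Real.rpow_add hq0]
      norm_num
    rw [e4, e5, ← Real.rpow_add hq0, neg_add_cancel, Real.rpow_zero]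
  calc c = (c * ((q : ℝ) * q) ^ (-(2000 : ℝ))) * ((q : ℝ) ^ (3999 : ℝ) * q) := by
        rw [mul_assoc, e3, mul_one]
    _ ≤ M * ((q : ℝ) ^ (3999 : ℝ) * q) := mul_le_mul_of_nonneg_right h2 (by positivity)
    _ = _ := by ring

/-- the measures for the three pairs -/
theorem pair (i j : ℕ) (hij : i < j) (hj : j ≤ 2) : ∃ w c : ℝ, 0 ≤ w ∧ 0 < c ∧ ∀ q : ℕ, 1 ≤ q → ∀ a : ℕ → ℤ,
    ∃ k ∈ ({i, j} : Finset ℕ), c ≤ (q : ℝ) ^ w * |(q : ℝ) * x k - a k| := by
  have hmax : ∀ (w c : ℝ), (∀ q : ℕ, 1 ≤ q → ∀ s t : ℤ,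
      c ≤ (q : ℝ) ^ w * max |(q : ℝ) * x i - s| |(q : ℝ) * x j - t|) → ∀ q : ℕ, 1 ≤ q → ∀ a : ℕ → ℤ,
      ∃ k ∈ ({i, j} : Finset ℕ), c ≤ (q : ℝ) ^ w * |(q : ℝ) * x k - a k| := by
    intro w c h q hq a
    have h2 := h q hq (a i) (a j)
    rcases max_choice |(q : ℝ) * x i - a i| |(q : ℝ) * x j - a j| with h3 | h3
    · rw [h3] at h2
      exact ⟨i, by simp, h2⟩
    · rw [h3] at h2
      exact ⟨j, by simp, h2⟩
  have hx0 : x 0 = zeta3 / Real.pi ^ 3 := by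
    simp only [x, if_true]
  have hx1 : x 1 = 8 * G - Real.pi ^ 5 / (18 * zeta3) + 1 * (2 / 3 * Real.pi ^ 2) := by
    simp only [x, one_ne_zero, if_false, if_true, one_mul]
  have hx2 : x 2 = 8 * G - Real.pi ^ 5 / (18 * zeta3) + (-1) * (2 / 3 * Real.pi ^ 2) := by
    simp only [x, OfNat.ofNat_ne_zero, OfNat.ofNat_ne_one, if_false]
    ring
  obtain rfl | rfl : j = 1 ∨ j = 2 := by omega
  · obtain rfl : i = 0 := by omega
    obtain ⟨c, hc, h⟩ := key 1 (Or.inl rfl)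
    refine ⟨3999, c, by norm_num, hc, hmax _ _ ?_⟩
    rw [hx0, hx1]
    exact h
  · obtain rfl | rfl : i = 0 ∨ i = 1 := by omega
    · obtain ⟨c, hc, h⟩ := key (-1) (Or.inr rfl)
      refine ⟨3999, c, by norm_num, hc, hmax _ _ ?_⟩
      rw [hx0, hx2]
      exact h
    · obtain ⟨w, c, hw, hc, h⟩ := Pool.Agent.Y928.PN.pi_pair
      refine ⟨w, c, hw, hc, hmax _ _ ?_⟩
      exact h (x 1) (x 2) (by rw [hx1, hx2]; ring)

/-- At every large scale at least two of the three numbers have uniformly distributed multiples. -/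
theorem result (K : ℕ) (A : ℝ) (hA : 1 ≤ A) : ∃ κ : ℝ, 0 < κ ∧ ∃ N₀ : ℕ, ∀ N : ℕ, N₀ ≤ N →
    ∀ i j : ℕ, i < j → j ≤ 2 →
      (∀ M : ℕ, N ≤ M → (M : ℝ) ≤ (N : ℝ) ^ A → Good κ K M (x i)) ∨
      (∀ M : ℕ, N ≤ M → (M : ℝ) ≤ (N : ℝ) ^ A → Good κ K M (x j)) := by
  have h1 : ∀ i j : ℕ, i < j → j ≤ 2 → ∃ κ : ℝ, 0 < κ ∧ ∃ N₀ : ℕ, 1 ≤ N₀ ∧ ∀ N : ℕ, N₀ ≤ N →
      Pool.Agent.Q29.Eqd.GoodRange (x i) K A κ N ∨ Pool.Agent.Q29.Eqd.GoodRange (x j) K A κ N := by
    intro i j hij hj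
    obtain ⟨w, c, hw, hc, h⟩ := pair i j hij hj
    obtain ⟨κ, hκ, N₀, hN₀1, hN₀⟩ := Pool.Agent.Q29.Eqd.simul_good' _ w hw x c hc h K A hA
    refine ⟨κ, hκ, N₀, hN₀1, fun N hN => ?_⟩
    obtain ⟨k, hk, hk2⟩ := hN₀ N hN
    rw [mem_insert, mem_singleton] at hk
    rcases hk with rfl | rfl
    · exact Or.inl hk2
    · exact Or.inr hk2
  obtain ⟨κ₁, hκ₁, N₁, hN₁, g1⟩ := h1 0 1 (by norm_num) (by norm_num)
  obtain ⟨κ₂, hκ₂, N₂, hN₂, g2⟩ := h1 0 2 (by norm_num) (by norm_num)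
  obtain ⟨κ₃, hκ₃, N₃, hN₃, g3⟩ := h1 1 2 (by norm_num) (by norm_num)
  refine ⟨min κ₁ (min κ₂ κ₃), lt_min hκ₁ (lt_min hκ₂ hκ₃), N₁ + N₂ + N₃, fun N hN i j hij hj => ?_⟩
  have hN1 : 1 ≤ N := by omega
  obtain rfl | rfl : j = 1 ∨ j = 2 := by omega
  · obtain rfl : i = 0 := by omega
    exact (g1 N (by omega)).imp (fun h => h.mono hN1 (min_le_left _ _)) fun h => h.mono hN1 (min_le_left _ _)
  · obtain rfl | rfl : i = 0 ∨ i = 1 := by omega
    · exact (g2 N (by omega)).imp (fun h => h.mono hN1 ((min_le_right _ _).trans (min_le_left _ _)))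
        fun h => h.mono hN1 ((min_le_right _ _).trans (min_le_left _ _))
    · exact (g3 N (by omega)).imp (fun h => h.mono hN1 ((min_le_right _ _).trans (min_le_right _ _)))
        fun h => h.mono hN1 ((min_le_right _ _).trans (min_le_right _ _))

end Pool.Agent.Results.MP_e47f08_nt.MultiplesAlongPrimes
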