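import Mathlib
import Pool.Agent.Q47.DG.Abs
import Pool.Agent.Results.MP_e47f08_nt.MultiplesAlongPrimes

/-!
# Pairs from two dense sets and `ζ(3)/π³`, at every scale

The three numbers are `x 0 = ζ(3)/π³` and `x 1, x 2 = 8 G - π⁵/(18 ζ(3)) ± (2/3) π²`, `G` Catalan's constant; at most one of
them is rational (starting files). Here is a distributional form for arbitrary dense sets: at every large scale `M` at least
two of the three numbers `x` have the property that the numbers `b x a ^ k c + R_c(a) + y_a` with `(a, c)` in the product of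
ANY two dense sets of integers, arbitrary real numbers `y_a` and arbitrary real polynomials `R_c` of degree less than
`k ≤ K` are uniformly distributed modulo one, with a power saving. In particular (`k = 1`) the multiples of `x` by the
products `a c`.

The proof uses the measures for the simultaneous rational approximations of the pairs (`TH957/PB`, `Y928/PN`), an
inverse theorem for the sums of Weyl (`H373R2/NB`) and a bilinear estimate (Cauchy-Schwarz in short blocks, `Pool/Agent/Q47/DG/EqdK`).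
-/

set_option autoImplicit false

namespace Pool.Agent.Results.MP_e47f08_nt.PairsFromDenseSets

open Finset Polynomial

/-- Polynomials over two dense sets are uniformly distributed at the scale `M`, with a power saving: for all integers
`b ≠ 0` with `|b| ≤ M ^ κ`, all degrees `1 ≤ k ≤ K`, all integers `H ≥ M ^ η`, ALL sets `A` of integers in `[0, M)` and `B` of
integers in `[0, H)` with `|A| |B| ≥ M ^ (1 - κ) H`, all real numbers `y_a`, all real polynomials `R_c` of degree less than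
`k` and all `0 ≤ u ≤ v ≤ 1`, the number of the pairs `(a, c) ∈ A × B` with the fractional part of
`b x a ^ k c + R_c(a) + y_a` in `[u, v)` is `(v - u) |A| |B|`, up to `|A| |B| M ^ (-κ)`. -/
def PGood (K : ℕ) (η κ : ℝ) (M : ℕ) (x : ℝ) : Prop :=
  ∀ b : ℤ, b ≠ 0 → |(b : ℝ)| ≤ (M : ℝ) ^ κ → ∀ k : ℕ, 1 ≤ k → k ≤ K → ∀ H : ℕ, (M : ℝ) ^ η ≤ H →
    ∀ A B : Finset ℕ, (∀ a ∈ A, a < M) → (∀ c ∈ B, c < H) → (M : ℝ) ^ (1 - κ) * H ≤ #A * #B →
    ∀ (y : ℕ → ℝ) (R : ℕ → ℝ[X]), (∀ c, (R c).degree < k) → ∀ u v : ℝ, 0 ≤ u → u ≤ v → v ≤ 1 →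
      |(#{i ∈ A ×ˢ B | u ≤ Int.fract (b * x * i.1 ^ k * i.2 + (R i.2).eval (i.1 : ℝ) + y i.1) ∧
          Int.fract (b * x * i.1 ^ k * i.2 + (R i.2).eval (i.1 : ℝ) + y i.1) < v} : ℝ) -
        (v - u) * (#A * #B)| ≤ #A * #B * (M : ℝ) ^ (-κ)

theorem pgood_iff (K : ℕ) (η κ : ℝ) (M : ℕ) (x : ℝ) : PGood K η κ M x ↔ Pool.Agent.Q47.DG.PGood K η κ M x := Iff.rfl

/-- `ζ(3)` -/
noncomputable def zeta3 : ℝ := ∑' j : ℕ, 1 / ((j : ℝ) + 1) ^ 3

/-- Catalan's constant -/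
noncomputable def G : ℝ := ∑' j : ℕ, (-1 : ℝ) ^ j / (2 * (j : ℝ) + 1) ^ 2

/-- `x 0 = ζ(3)/π³`, `x 1 = 8 G - π⁵/(18 ζ(3)) + (2/3) π²`, `x 2 = 8 G - π⁵/(18 ζ(3)) - (2/3) π²` -/
noncomputable def x (i : ℕ) : ℝ :=
  if i = 0 then zeta3 / Real.pi ^ 3
  else if i = 1 then 8 * G - Real.pi ^ 5 / (18 * zeta3) + 2 / 3 * Real.pi ^ 2
  else 8 * G - Real.pi ^ 5 / (18 * zeta3) - 2 / 3 * Real.pi ^ 2

theorem x_eq : x = Pool.Agent.Results.MP_e47f08_nt.MultiplesAlongPrimes.x := rfl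

/-- At every large scale at least two of the three numbers have the property. -/
theorem result (K : ℕ) (η : ℝ) (hη : 0 < η) (A : ℝ) (hA : 1 ≤ A) : ∃ κ : ℝ, 0 < κ ∧ ∃ N₀ : ℕ, ∀ N : ℕ, N₀ ≤ N →
    ∀ i j : ℕ, i < j → j ≤ 2 →
      (∀ M : ℕ, N ≤ M → (M : ℝ) ≤ (N : ℝ) ^ A → PGood K η κ M (x i)) ∨
      (∀ M : ℕ, N ≤ M → (M : ℝ) ≤ (N : ℝ) ^ A → PGood K η κ M (x j)) := by
  have h1 : ∀ i j : ℕ, i < j → j ≤ 2 → ∃ κ : ℝ, 0 < κ ∧ ∃ N₀ : ℕ, 1 ≤ N₀ ∧ ∀ N : ℕ, N₀ ≤ N →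
      Pool.Agent.Q47.DG.Abs.PRange (Pool.Agent.Q47.DG.PGood K η) (x i) A κ N ∨
      Pool.Agent.Q47.DG.Abs.PRange (Pool.Agent.Q47.DG.PGood K η) (x j) A κ N := by
    intro i j hij hj
    obtain ⟨w, c, hw, hc, h⟩ := Pool.Agent.Results.MP_e47f08_nt.MultiplesAlongPrimes.pair i j hij hj
    rw [← x_eq] at h
    obtain ⟨κ, hκ, N₀, hN₀1, hN₀⟩ := Pool.Agent.Q47.DG.Abs.simul_good' _
      (Pool.Agent.Q47.DG.Abs.engine_prod K η hη) _ w hw x c hc h A hA
    refine ⟨κ, hκ, N₀, hN₀1, fun N hN => ?_⟩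
    obtain ⟨k, hk, hk2⟩ := hN₀ N hN
    rw [mem_insert, mem_singleton] at hk
    rcases hk with rfl | rfl
    · exact Or.inl hk2
    · exact Or.inr hk2
  have hmono : ∀ (κ κ' : ℝ) (N : ℕ) (t : ℝ), 1 ≤ N → κ' ≤ κ →
      Pool.Agent.Q47.DG.Abs.PRange (Pool.Agent.Q47.DG.PGood K η) t A κ N →
      ∀ M : ℕ, N ≤ M → (M : ℝ) ≤ (N : ℝ) ^ A → PGood K η κ' M t := by
    intro κ κ' N t hN hκ h M hNM hMA
    exact (pgood_iff _ _ _ _ _).2 ((h M hNM hMA).mono (hN.trans hNM) hκ)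
  obtain ⟨κ₁, hκ₁, N₁, hN₁, g1⟩ := h1 0 1 (by norm_num) (by norm_num)
  obtain ⟨κ₂, hκ₂, N₂, hN₂, g2⟩ := h1 0 2 (by norm_num) (by norm_num)
  obtain ⟨κ₃, hκ₃, N₃, hN₃, g3⟩ := h1 1 2 (by norm_num) (by norm_num)
  refine ⟨min κ₁ (min κ₂ κ₃), lt_min hκ₁ (lt_min hκ₂ hκ₃), N₁ + N₂ + N₃, fun N hN i j hij hj => ?_⟩
  have hN1 : 1 ≤ N := by omega
  obtain rfl | rfl : j = 1 ∨ j = 2 := by omega
  · obtain rfl : i = 0 := by omega
    exact (g1 N (by omega)).imp (hmono _ _ _ _ hN1 (min_le_left _ _)) (hmono _ _ _ _ hN1 (min_le_left _ _))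
  · obtain rfl | rfl : i = 0 ∨ i = 1 := by omega
    · exact (g2 N (by omega)).imp (hmono _ _ _ _ hN1 ((min_le_right _ _).trans (min_le_left _ _)))
        (hmono _ _ _ _ hN1 ((min_le_right _ _).trans (min_le_left _ _)))
    · exact (g3 N (by omega)).imp (hmono _ _ _ _ hN1 ((min_le_right _ _).trans (min_le_right _ _)))
        (hmono _ _ _ _ hN1 ((min_le_right _ _).trans (min_le_right _ _)))

end Pool.Agent.Results.MP_e47f08_nt.PairsFromDenseSets
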